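import Pool.Agent.Helper93.GS.Stmts

set_option autoImplicit false

/-! # The dimension of `V n` -/

namespace Pool.Agent.Helper93.GS

/-- the words of length `n` -/
def vdim_S (n : ℕ) : Set (FreeMonoid (Fin 2)) := {w | w.length = n}

theorem vdim_eq (n : ℕ) : V n = (Finsupp.supported ℚ ℚ (vdim_S n)).comap
    (MonoidAlgebra.coeffLinearEquiv (M := FreeMonoid (Fin 2)) (S := ℚ) ℚ).toLinearMap := by
  ext f
  rw [Submodule.mem_comap, Finsupp.mem_supported]
  constructor
  · intro h w hw
    exact h w (Finsupp.mem_support_iff.1 hw)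
  · intro h w hw
    exact h (Finsupp.mem_support_iff.2 hw)

/-- words of length `n` are vectors -/
def vdim_equiv (n : ℕ) : vdim_S n ≃ List.Vector (Fin 2) n where
  toFun w := ⟨FreeMonoid.toList w.1, w.2⟩
  invFun v := ⟨FreeMonoid.ofList v.1, v.2⟩
  left_inv _ := rfl
  right_inv _ := rfl

theorem st_VDIM : ST_VDIM := by
  intro n
  have : Finite (vdim_S n) := Finite.of_equiv _ (vdim_equiv n).symm
  have e : V n ≃ₗ[ℚ] (vdim_S n →₀ ℚ) :=
    ((LinearEquiv.ofEq _ _ (vdim_eq n)).trans
      (LinearEquiv.ofSubmodule' (MonoidAlgebra.coeffLinearEquiv (M := FreeMonoid (Fin 2)) (S := ℚ) ℚ)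
        (Finsupp.supported ℚ ℚ (vdim_S n)))).trans (Finsupp.supportedEquivFinsupp (vdim_S n))
  refine ⟨Module.Finite.equiv e.symm, ?_⟩
  have : Fintype (vdim_S n) := Fintype.ofFinite _
  rw [e.finrank_eq, Module.finrank_finsupp_self, Fintype.card_congr (vdim_equiv n), card_vector,
    Fintype.card_fin]

end Pool.Agent.Helper93.GS
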